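import Pool.Agent.Lib.H30F.SD

/-!
# H32TF, file Q: fibre lemma for an inclusion of finite posets; the poset of complements
-/

set_option autoImplicit false
set_option linter.unusedSectionVars false

namespace H32TF

open Finset H98P H63F H30F

/-- FIBRE LEMMA: `P ⊆ Q`, all the fibres `P` below `y ∈ Q` acyclic, `Q` acyclic, then `P` is. -/
theorem ac_fibre {α : Type*} [PartialOrder α] [Fintype α] [DecidableEq α] {P Q : α → Prop}
    (hPQ : ∀ x, P x → Q x) (hf : ∀ y, Q y → AC (Ch fun x => P x ∧ x ≤ y))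
    (hQ : AC (Ch Q)) : AC (Ch P) := by
  refine ac_transfer (Ch P) (Ch Q) ch_dn ch_dn (ch_empty P) (ch_empty Q)
    (fun s T => T ⊆ s) (fun t => Ch fun x => P x ∧ ∃ m ∈ t, x ≤ m)
    (fun s => Ch fun x => P x ∧ ∃ m ∈ s, x ≤ m)
    ?_ ?_ ?_ ?_ ?_ ?_ ?_ ?_ ?_ ?_ ?_ ?_ ?_ hQ
  · exact fun s t hst _ _ r hr => hr.trans hst
  · exact fun s _ _ => empty_subset _
  · exact fun s _ hn => ac_simplex hn
  · exact fun s hs _ r hr => ch_dn _ _ hr (ch_mono hPQ hs)
  · exact fun s t hst _ _ r hr =>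
      ch_mono (fun x hx => ⟨hx.1, hx.2.choose, hst hx.2.choose_spec.1, hx.2.choose_spec.2⟩) hr
  · exact fun s _ _ => ch_empty _
  · intro s hs hn
    obtain ⟨M, hM, h⟩ := ch_max hs hn
    refine ac_congr (K := Ch fun x => P x ∧ x ≤ M) (fun c => ?_) (hf M (hs.1 M hM))
    constructor
    · exact fun hc => ch_mono (fun x hx => ⟨hx.1, M, hM, hx.2⟩) hc
    · exact fun hc => ch_mono (fun x ⟨h1, m, hm, h2⟩ => ⟨h1, h2.trans (h m hm)⟩) hc
  · exact fun s _ _ r hr => ch_mono (fun x hx => hx.1) hr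
  · exact fun s t hst _ _ r hr =>
      ch_mono (fun x hx => ⟨hx.1, hx.2.choose, hst hx.2.choose_spec.1, hx.2.choose_spec.2⟩) hr
  · exact fun s hs _ => ⟨fun x hx => ⟨hs.1 x hx, x, hx, le_refl _⟩, hs.2⟩
  · intro s hs hn
    obtain ⟨M, hM, h⟩ := ch_max hs hn
    refine ac_ch_cone (a := M) ⟨hs.1 M hM, M, hM, le_refl _⟩ fun x hx => Or.inr ?_
    obtain ⟨-, m, hm, h2⟩ := hx
    exact h2.trans (h m hm)
  · exact fun s _ _ r hr => ch_mono (fun x hx => hx.1) hr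
  · rintro s t r hs hn h1 _ h3
    exact ch_mono (fun x hx => ⟨hx.1, hx.2.choose, h1 hx.2.choose_spec.1, hx.2.choose_spec.2⟩) h3

variable {V : Type*} [Fintype V] [DecidableEq V]

/-- The Alexander dual of `K` on the ground set `W`. -/
def Du (W : Finset V) (K : Finset V → Prop) (s : Finset V) : Prop :=
  s ⊆ W ∧ ¬ K (W \ s)

theorem du_dn {W : Finset V} {K : Finset V → Prop} (hK : Dn K) : Dn (Du W K) :=
  fun _ _ h ht => ⟨h.trans ht.1, fun h1 => ht.2 (hK _ _ (sdiff_subset_sdiff Subset.rfl h) h1)⟩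

/-- The proper subsets of `W` outside `K`, if the dual is acyclic. -/
theorem ac_ch_of_du {W : Finset V} {K : Finset V → Prop} (hK : Dn K) (hW : ¬ K W)
    (hA : AC (Du W K)) : AC (Ch fun s : Finset V => s ⊂ W ∧ ¬ K s) := by
  have h1 := ac_sd (du_dn (W := W) hK) (show Du W K ∅ from ⟨empty_subset _, by simpa using hW⟩) hA
  have h1' : @AC (Finset V)ᵒᵈ _ _ (@Ch (Finset V) _ fun G => Du W K G ∧ G.Nonempty) := h1
  have h2 : AC (@Ch (Finset V)ᵒᵈ _
      fun G : (Finset V)ᵒᵈ => Du W K (OrderDual.ofDual G) ∧ (OrderDual.ofDual G).Nonempty) := by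
    refine @ac_congr (Finset V)ᵒᵈ _ _ (@Ch (Finset V) _ fun G => Du W K G ∧ G.Nonempty) _
      (fun c => ?_) h1'
    constructor
    · exact fun hc => ⟨hc.1, fun x hx y hy => hc.2 y hy x hx⟩
    · exact fun hc => ⟨hc.1, fun x hx y hy => hc.2 y hy x hx⟩
  refine ac_closure (β := (Finset V)ᵒᵈ) (fun x : Finset V => OrderDual.toDual (W \ x))
    (fun y : (Finset V)ᵒᵈ => W \ OrderDual.ofDual y) ?_ ?_ ?_ ?_ ?_ h2
  · rintro x ⟨hx1, hx2⟩
    refine ⟨⟨sdiff_subset, ?_⟩, ?_⟩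
    · rw [OrderDual.ofDual_toDual, Finset.sdiff_sdiff_eq_self hx1.1]
      exact hx2
    · rw [OrderDual.ofDual_toDual, sdiff_nonempty]
      exact hx1.2
  · rintro y ⟨⟨hy1, hy2⟩, hy3⟩
    refine ⟨⟨sdiff_subset, fun h => ?_⟩, hy2⟩
    obtain ⟨a, ha⟩ := hy3
    exact (mem_sdiff.1 (h (hy1 ha))).2 ha
  · intro x x' _ _ h
    exact OrderDual.toDual_le_toDual.2 (sdiff_subset_sdiff Subset.rfl h)
  · intro y y' _ _ h
    exact sdiff_subset_sdiff Subset.rfl (OrderDual.ofDual_le_ofDual.2 h)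
  · rintro x ⟨hx1, -⟩
    rw [OrderDual.ofDual_toDual, Finset.sdiff_sdiff_eq_self hx1.1]

end H32TF
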