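import Pool.Agent.Lib.H32TF.Q

/-!
# H32TF, file T: the dual tree lemma (helper8's tree lemma for the Alexander dual)
-/

set_option autoImplicit false
set_option linter.unusedSectionVars false

namespace H32TF

open Finset H98P H63F H30F

variable {V : Type*} [Fintype V] [DecidableEq V]

/-- `W` is connected in `G`. -/
def Cn (G : SimpleGraph V) (W : Finset V) : Prop :=
  ∀ x ∈ W, ∀ y ∈ W, ∃ p : G.Walk x y, ∀ v ∈ p.support, v ∈ W

/-- EXCHANGE PROPERTY (P1) on the ground set `W`. -/
def Exch (G : SimpleGraph V) (W : Finset V) (K : Finset V → Prop) : Prop :=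
  ∀ (A : Finset V) (b d : V) (p : G.Walk b d), p.IsPath → (∀ v ∈ p.support, v ∈ W) → b ≠ d →
    b ∉ A → d ∉ A → K (insert b A) → K (insert d A) →
    (∀ v ∈ p.support, v ≠ b → v ≠ d → v ∉ A ∧ ¬ K (insert v A)) → K (insert b (insert d A))

/-- deletion -/
def Dl (K : Finset V → Prop) (b : V) (s : Finset V) : Prop := K s ∧ b ∉ s

/-- link -/
def Lk (K : Finset V → Prop) (b : V) (s : Finset V) : Prop := K (insert b s) ∧ b ∉ s

theorem dn_dl {K : Finset V → Prop} (hK : Dn K) (b : V) : Dn (Dl K b) :=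
  fun _ _ h ht => ⟨hK _ _ h ht.1, fun hb => ht.2 (h hb)⟩

theorem dn_lk {K : Finset V → Prop} (hK : Dn K) (b : V) : Dn (Lk K b) :=
  fun _ _ h ht => ⟨hK _ _ (insert_subset_insert b h) ht.1, fun hb => ht.2 (h hb)⟩

theorem exch_dl {G : SimpleGraph V} {W : Finset V} {K : Finset V → Prop} (h : Exch G W K) (b : V) :
    Exch G (W.erase b) (Dl K b) := by
  intro A x y p hp hW hxy hx hy hKx hKy hin
  have hxb : x ≠ b := (mem_erase.1 (hW x p.start_mem_support)).1
  have hyb : y ≠ b := (mem_erase.1 (hW y p.end_mem_support)).1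
  have hbA : b ∉ A := fun hb => hKx.2 (mem_insert_of_mem hb)
  refine ⟨h A x y p hp (fun v hv => (mem_erase.1 (hW v hv)).2) hxy hx hy hKx.1 hKy.1
    fun v hv h1 h2 => ?_, ?_⟩
  · obtain ⟨h3, h4⟩ := hin v hv h1 h2
    refine ⟨h3, fun h5 => h4 ⟨h5, fun h6 => ?_⟩⟩
    rcases mem_insert.1 h6 with h7 | h7
    · exact (mem_erase.1 (hW v hv)).1 h7.symm
    · exact hbA h7
  · intro h6
    rcases mem_insert.1 h6 with h7 | h7
    · exact hxb h7.symm
    rcases mem_insert.1 h7 with h8 | h8
    · exact hyb h8.symm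
    · exact hbA h8

theorem exch_lk {G : SimpleGraph V} {W : Finset V} {K : Finset V → Prop} (h : Exch G W K) (b : V) :
    Exch G (W.erase b) (Lk K b) := by
  intro A x y p hp hW hxy hx hy hKx hKy hin
  have hxb : x ≠ b := (mem_erase.1 (hW x p.start_mem_support)).1
  have hyb : y ≠ b := (mem_erase.1 (hW y p.end_mem_support)).1
  have hbA : b ∉ A := fun hb => hKx.2 (mem_insert_of_mem hb)
  have h1 := h (insert b A) x y p hp (fun v hv => (mem_erase.1 (hW v hv)).2) hxy
    (fun h6 => (mem_insert.1 h6).elim hxb hx) (fun h6 => (mem_insert.1 h6).elim hyb hy)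
    (by rw [insert_comm]; exact hKx.1) (by rw [insert_comm]; exact hKy.1)
    fun v hv h1 h2 => ?_
  · refine ⟨?_, ?_⟩
    · rw [insert_comm b x, insert_comm b y]
      exact h1
    · intro h6
      rcases mem_insert.1 h6 with h7 | h7
      · exact hxb h7.symm
      rcases mem_insert.1 h7 with h8 | h8
      · exact hyb h8.symm
      · exact hbA h8
  · obtain ⟨h3, h4⟩ := hin v hv h1 h2
    have hvb : v ≠ b := (mem_erase.1 (hW v hv)).1
    refine ⟨fun h6 => (mem_insert.1 h6).elim hvb h3, fun h5 => h4 ⟨?_, fun h6 => ?_⟩⟩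
    · rw [insert_comm]
      exact h5
    · rcases mem_insert.1 h6 with h7 | h7
      · exact hvb h7.symm
      · exact hbA h7

/-- A connected set with at least two vertices has a vertex whose deletion leaves it connected. -/
theorem exists_leaf {G : SimpleGraph V} {W : Finset V} (hW : Cn G W) (h2 : 2 ≤ W.card) :
    ∃ b ∈ W, Cn G (W.erase b) := by
  classical
  have hne : W.Nonempty := card_pos.1 (by omega)
  obtain ⟨w0, hw0⟩ := hne
  have : Nontrivial (W : Set V) := by
    obtain ⟨a, ha, b, hb, hab⟩ := one_lt_card.1 (show 1 < W.card by omega)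
    exact ⟨⟨a, ha⟩, ⟨b, hb⟩, fun h => hab (congrArg Subtype.val h)⟩
  have hc : (G.induce (W : Set V)).Connected := by
    have : Nonempty (W : Set V) := ⟨⟨w0, hw0⟩⟩
    refine ⟨fun x y => ?_⟩
    obtain ⟨p, hp⟩ := hW x.1 x.2 y.1 y.2
    exact ⟨p.induce (W : Set V) hp⟩
  obtain ⟨b, hb⟩ := hc.exists_connected_induce_compl_singleton_of_finite_nontrivial
  refine ⟨b.1, b.2, fun x hx y hy => ?_⟩
  obtain ⟨hxb, hxW⟩ := mem_erase.1 hx
  obtain ⟨hyb, hyW⟩ := mem_erase.1 hy
  obtain ⟨q⟩ := hb.preconnected ⟨⟨x, hxW⟩, fun h => hxb (congrArg Subtype.val h)⟩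
    ⟨⟨y, hyW⟩, fun h => hyb (congrArg Subtype.val h)⟩
  let f : ((G.induce (W : Set V)).induce {b}ᶜ) →g G :=
    ⟨fun v => v.1.1, fun {u v} h => h⟩
  refine ⟨q.map f, fun v hv => ?_⟩
  rw [SimpleGraph.Walk.support_map, List.mem_map] at hv
  obtain ⟨u, -, rfl⟩ := hv
  exact mem_erase.2 ⟨fun h => u.2 (Subtype.ext h), u.1.2⟩

/-- nearest vertex -/
theorem near {G : SimpleGraph V} {W : Finset V} {K : Finset V → Prop}
    (h : Exch G W K) {b : V} (hb : K {b}) :
    ∀ (n : ℕ) (c : V) (p : G.Walk b c), p.length ≤ n → (∀ v ∈ p.support, v ∈ W) → c ≠ b → K {c} →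
      ∃ c', c' ≠ b ∧ c' ∈ W ∧ K {b, c'} := by
  intro n
  induction n with
  | zero =>
    intro c p hp _ hcb _
    exact absurd (SimpleGraph.Walk.eq_of_length_eq_zero (Nat.le_zero.1 hp)).symm hcb
  | succ n ih =>
    intro c p hp hW hcb hc
    by_cases hex : ∃ v ∈ p.support, v ≠ b ∧ v ≠ c ∧ K {v}
    · obtain ⟨v, hv, hvb, hvc, hKv⟩ := hex
      refine ih v (p.takeUntil v hv) ?_
        (fun u hu => hW u (p.support_takeUntil_subset_support hv hu)) hvb hKv
      have := p.length_takeUntil_lt_length hv hvc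
      omega
    · push Not at hex
      refine ⟨c, hcb, hW c p.end_mem_support, ?_⟩
      have h1 := h ∅ b c p.toPath.1 p.toPath.2
        (fun v hv => hW v (p.support_toPath_subset_support hv)) (Ne.symm hcb)
        (notMem_empty _) (notMem_empty _) (by simpa using hb) (by simpa using hc)
        (fun v hv h2 h3 => ⟨notMem_empty _, fun h4 => hex v (p.support_toPath_subset_support hv) h2 h3
          (by simpa using h4)⟩)
      simpa using h1

/-- DUAL TREE LEMMA. -/
theorem ac_du {G : SimpleGraph V} : ∀ (n : ℕ) (W : Finset V) (K : Finset V → Prop), W.card ≤ n →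
    Cn G W → Dn K → Exch G W K → (∃ w ∈ W, K {w}) → AC (Du W K) := by
  intro n
  induction n with
  | zero =>
    intro W K hn _ _ _ ⟨w, hw, _⟩
    have := card_pos.2 ⟨w, hw⟩
    omega
  | succ n ih =>
    intro W K hn hW hK hE ⟨w, hw, hKw⟩
    rcases Nat.lt_or_ge W.card 2 with h2 | h2
    · -- one vertex
      have hW1 : W = {w} := by
        refine eq_singleton_iff_unique_mem.2 ⟨hw, fun x hx => ?_⟩
        exact card_le_one.1 (by omega) x hx w hw
      refine ac_congr (K := fun _ => False) (fun s => ?_) ?_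
      · refine ⟨False.elim, fun h => h.2 (hK _ _ ?_ hKw)⟩
        rw [← hW1]
        exact sdiff_subset
      · intro z hz _
        exact ⟨z, hz, fun r => by
          have h0 : ∀ s, z s = 0 := fun s => by
            by_contra h
            exact hz s h
          unfold bd
          rw [h0 r]
          exact sum_eq_zero fun e _ => h0 _⟩
    obtain ⟨b, hbW, hb⟩ := exists_leaf hW h2
    have hcard : (W.erase b).card ≤ n := by
      rw [card_erase_of_mem hbW]
      omega
    -- the three pieces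
    have key : AC (fun s => (Du W K s ∧ b ∉ s) ∨ Du W K (insert b s)) →
        AC (Du W K) := by
      intro h
      refine ac_congr (fun s => ?_) h
      constructor
      · rintro (h1 | h1)
        · exact h1.1
        · exact du_dn hK _ _ (subset_insert b s) h1
      · intro h1
        by_cases hbs : b ∈ s
        · right
          rwa [insert_eq_of_mem hbs]
        · exact Or.inl ⟨h1, hbs⟩
    have d1 : Dn (fun s => Du W K s ∧ b ∉ s) :=
      fun s t hst ht => ⟨du_dn hK _ _ hst ht.1, fun h => ht.2 (hst h)⟩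
    have d2 : Dn (fun s => Du W K (insert b s)) :=
      fun s t hst ht => du_dn hK _ _ (insert_subset_insert b hst) ht
    have a2 : AC (fun s => Du W K (insert b s)) :=
      H96H.ac_cone d2 b fun s hs => by
        rw [insert_idem]
        exact hs
    have e1 : ∀ s, b ∉ s → (Du W K s ↔ Du (W.erase b) (Lk K b) s) := by
      intro s hbs
      have h3 : W \ s = insert b (W.erase b \ s) := by
        rw [← insert_sdiff_of_notMem _ hbs, insert_erase hbW]
      unfold Du Lk
      rw [← h3]
      constructor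
      · rintro ⟨h4, h5⟩
        exact ⟨fun x hx => mem_erase.2 ⟨fun e => hbs (e ▸ hx), h4 hx⟩, fun h6 => h5 h6.1⟩
      · rintro ⟨h4, h5⟩
        refine ⟨h4.trans (erase_subset _ _), fun h6 => h5 ⟨h6, ?_⟩⟩
        simp
    have e2 : ∀ s, b ∉ s → (Du W K (insert b s) ↔ Du (W.erase b) (Dl K b) s) := by
      intro s hbs
      have h3 : W \ insert b s = W.erase b \ s := by
        ext x
        simp only [mem_sdiff, mem_insert, mem_erase, not_or]
        tauto
      unfold Du Dl
      rw [h3]
      constructor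
      · rintro ⟨h4, h5⟩
        exact ⟨fun x hx => mem_erase.2 ⟨fun e => hbs (e ▸ hx), h4 (mem_insert_of_mem hx)⟩,
          fun h6 => h5 h6.1⟩
      · rintro ⟨h4, h5⟩
        refine ⟨insert_subset hbW (h4.trans (erase_subset _ _)), fun h6 => h5 ⟨h6, ?_⟩⟩
        simp
    have hlink : (∃ w' ∈ W.erase b, K {w'}) → AC (fun s => (Du W K s ∧ b ∉ s) ∧ Du W K (insert b s)) := by
      rintro ⟨c, hcW, hKc⟩
      refine ac_congr (K := Du (W.erase b) (Dl K b)) (fun s => ?_)
        (ih (W.erase b) (Dl K b) hcard hb (dn_dl hK b) (exch_dl hE b)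
          ⟨c, hcW, hKc, fun h => (mem_erase.1 hcW).1 (mem_singleton.1 h).symm⟩)
      constructor
      · intro h
        have hbs : b ∉ s := fun hbs => (mem_erase.1 (h.1 hbs)).1 rfl
        have h4 := (e2 s hbs).2 h
        exact ⟨⟨du_dn hK _ _ (subset_insert b s) h4, hbs⟩, h4⟩
      · exact fun h => (e2 s h.1.2).1 h.2
    by_cases hKb : K {b}
    · by_cases hc : ∃ c, c ≠ b ∧ c ∈ W ∧ K {b, c}
      · -- both by induction
        obtain ⟨c, hcb, hcW, hKbc⟩ := hc
        have hcE : c ∈ W.erase b := mem_erase.2 ⟨hcb, hcW⟩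
        refine key (ac_union d1 d2 ?_ a2 (hlink ⟨c, hcE, hK _ _ (by simp) hKbc⟩))
        refine ac_congr (K := Du (W.erase b) (Lk K b)) (fun s => ?_)
          (ih (W.erase b) (Lk K b) hcard hb (dn_lk hK b) (exch_lk hE b)
            ⟨c, hcE, hKbc, fun h => hcb (mem_singleton.1 h).symm⟩)
        constructor
        · intro h
          have hbs : b ∉ s := fun hbs => (mem_erase.1 (h.1 hbs)).1 rfl
          exact ⟨(e1 s hbs).2 h, hbs⟩
        · exact fun h => (e1 s h.2).1 h.1
      · -- `K` has only the vertex `b`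
        have hno : ∀ c ∈ W, c ≠ b → ¬ K {c} := by
          intro c hcW hcb hKc
          obtain ⟨p, hp⟩ := hW b hbW c hcW
          exact hc (near hE hKb p.length c p le_rfl hp hcb hKc)
        refine H96H.ac_cone (du_dn hK) b fun s hs => ⟨insert_subset hbW hs.1, fun h => ?_⟩
        rcases (W \ insert b s).eq_empty_or_nonempty with h3 | ⟨c, hc3⟩
        · have h4 : W \ s ⊆ {b} := by
            intro x hx
            by_contra hxb
            have : x ∈ W \ insert b s := by
              rw [mem_sdiff, mem_insert, not_or]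
              exact ⟨(mem_sdiff.1 hx).1, fun e => hxb (mem_singleton.2 e), (mem_sdiff.1 hx).2⟩
            rw [h3] at this
            exact notMem_empty _ this
          exact hs.2 (hK _ _ h4 hKb)
        · have h4 := mem_sdiff.1 hc3
          exact hno c h4.1 (fun e => h4.2 (mem_insert.2 (Or.inl e)))
            (hK _ _ (singleton_subset_iff.2 hc3) h)
    · -- `b` is not a vertex of `K`
      have hwb : w ≠ b := fun e => hKb (e ▸ hKw)
      have hwE : w ∈ W.erase b := mem_erase.2 ⟨hwb, hw⟩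
      refine key (ac_union d1 d2 ?_ a2 (hlink ⟨w, hwE, hKw⟩))
      refine ac_congr (K := fun s => s ⊆ W.erase b) (fun s => ?_) (ac_simplex ⟨w, hwE⟩)
      constructor
      · intro h
        have hbs : b ∉ s := fun hbs => (mem_erase.1 (h hbs)).1 rfl
        refine ⟨⟨h.trans (erase_subset _ _), fun h5 => hKb (hK _ _ ?_ h5)⟩, hbs⟩
        exact singleton_subset_iff.2 (mem_sdiff.2 ⟨hbW, hbs⟩)
      · exact fun h x hx => mem_erase.2 ⟨fun e => h.2 (e ▸ hx), h.1.1 hx⟩

/-- The proper subsets of a connected set `W` outside `K`. -/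
theorem ac_below {G : SimpleGraph V} {W : Finset V} {K : Finset V → Prop} (hW : Cn G W) (hK : Dn K)
    (hE : Exch G W K) (hw : ∃ w ∈ W, K {w}) (hKW : ¬ K W) :
    AC (Ch fun s : Finset V => s ⊂ W ∧ ¬ K s) :=
  ac_ch_of_du hK hKW (ac_du W.card W K le_rfl hW hK hE hw)

/-- THE FUNCTOR IS ACYCLIC: `Di W`: the set `W` is disconnected (any predicate such that the sets outside it are
connected), `K` = coverable. -/
theorem ac_disc {G : SimpleGraph V} {K Di : Finset V → Prop} (hK : Dn K) (hK0 : K ∅)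
    (hK1 : ∀ v, K {v}) (hD : ∀ W : Finset V, W.Nonempty → ¬ Di W → Cn G W)
    (hE : ∀ W : Finset V, Cn G W → ¬ K W → Exch G W K) {M : Finset V} (hM : ¬ K M) :
    AC (Ch fun W : Finset V => (Di W ∧ ¬ K W) ∧ W ≤ M) := by
  suffices H : ∀ (n : ℕ) (M : Finset V), M.card ≤ n → ¬ K M →
      AC (Ch fun W : Finset V => (Di W ∧ ¬ K W) ∧ W ≤ M) from H M.card M le_rfl hM
  intro n
  induction n with
  | zero =>
    intro M hn hM
    have : M = ∅ := card_eq_zero.1 (Nat.le_zero.1 hn)
    subst this
    exact absurd hK0 hM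
  | succ n ih =>
    intro M hn hM
    by_cases hDi : Di M
    · exact ac_ch_cone (a := M) ⟨⟨hDi, hM⟩, le_rfl⟩ fun x hx => Or.inr hx.2
    · have hne : M.Nonempty := by
        rcases M.eq_empty_or_nonempty with h | h
        · exact absurd (h ▸ hK0) hM
        · exact h
      have hC := hD M hne hDi
      obtain ⟨w, hw⟩ := hne
      refine ac_fibre (Q := fun s : Finset V => s ⊂ M ∧ ¬ K s) ?_ ?_
        (ac_below hC hK (hE M hC hM) ⟨w, hw, hK1 w⟩ hM)
      · rintro W ⟨⟨h1, h2⟩, h3⟩
        refine ⟨lt_of_le_of_ne h3 fun e => hDi (e ▸ h1), h2⟩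
      · rintro W ⟨h1, h2⟩
        have h3 : W.card ≤ n := by
          have := card_lt_card h1
          omega
        refine ac_congr (fun c => ?_) (ih W h3 h2)
        constructor
        · exact fun hc => ch_mono (fun x hx => ⟨⟨hx.1, hx.2.trans h1.1⟩, hx.2⟩) hc
        · exact fun hc => ch_mono (fun x hx => ⟨hx.1.1, hx.2⟩) hc

/-- The whole functor value. -/
theorem ac_functor {G : SimpleGraph V} {K Di : Finset V → Prop} (hK : Dn K) (hK0 : K ∅)
    (hK1 : ∀ v, K {v}) (hD : ∀ W : Finset V, W.Nonempty → ¬ Di W → Cn G W)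
    (hE : ∀ W : Finset V, Cn G W → ¬ K W → Exch G W K) (hV : ¬ K univ) :
    AC (Ch fun W : Finset V => Di W ∧ ¬ K W) := by
  refine ac_congr (fun c => ?_) (ac_disc hK hK0 hK1 hD hE hV)
  constructor
  · exact fun hc => ch_mono (fun x hx => hx.1) hc
  · exact fun hc => ch_mono (fun x hx => ⟨hx, subset_univ x⟩) hc

end H32TF
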